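import Mathlib

/-!
# `t`-factors meeting every cycle of an edge-disjoint family (MP_f3efb8_co)

For each `κ ∈ {2, 3}` the statement of the problem is false, already for simple graphs and for a
family `O` that consists of one single triangle.

* `κ = 2`: `r = 8`, `t = 5`.  Take `K₉` with vertex set `T ∪ S`, `|T| = 3`, `|S| = 6`, and replace
  each of the 15 edges inside `S` by a block with 9 vertices (`K₉` minus an edge).
* `κ = 3`: `r = 11`, `t = 8`.  `|T| = 3`, `|S| = 9`, the vertices of `T` are joined to everything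
  in `T ∪ S`, and 24 blocks with 13 vertices are attached, each by three edges to `S`.

By parity every `t`-factor uses at most `κ - 1` of the `κ` edges that leave a block; counting then
shows that no `t`-factor contains an edge of the triangle `T`.
-/

namespace Pool.Agent.Results.MP_f3efb8_co.ForcedTriangle

open Finset

/-- `F` is (the edge set of) a `t`-factor of `G`: a spanning subgraph in which every vertex has
degree exactly `t`. -/
def IsFactor {V : Type} (G : SimpleGraph V) (t : ℕ) (F : SimpleGraph V) : Prop :=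
  F ≤ G ∧ ∀ v, (F.neighborSet v).ncard = t

/-- `G` is `κ`-connected: it has more than `κ` vertices, and deleting any set of fewer than `κ`
vertices leaves a connected graph. -/
def KConn {V : Type} [Fintype V] (κ : ℕ) (G : SimpleGraph V) : Prop :=
  κ < Fintype.card V ∧ ∀ X : Finset V, X.card < κ → (G.induce {v | v ∉ X}).Connected

/-- `C` is the edge set of a cycle of `G`. -/
def IsCycleEdges {V : Type} (G : SimpleGraph V) (C : Set (Sym2 V)) : Prop :=
  ∃ (v : V) (p : G.Walk v v), p.IsCycle ∧ C = {e | e ∈ p.edges}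

/-- The statement of the problem for `κ`, restricted to simple graphs. -/
def StatementFor (κ : ℕ) : Prop :=
  ∀ r t : ℕ, 0 < r → 0 < t → (1 : ℚ) / κ ≤ (t : ℚ) / r → (t : ℚ) / r ≤ 1 →
    ∀ (V : Type) [Fintype V] (G : SimpleGraph V), KConn κ G →
      (∀ v, (G.neighborSet v).ncard = r) → (∃ F, IsFactor G t F) →
      ∀ O : Set (Set (Sym2 V)), (∀ C ∈ O, IsCycleEdges G C) → O.PairwiseDisjoint id →
        ∃ F, IsFactor G t F ∧ ∀ C ∈ O, (C ∩ F.edgeSet).Nonempty

/-! ## The vertex set and the graphs -/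

/-- Vertices: the three vertices of `T`, the `s` vertices of `S`, and `q` blocks with `b`
vertices. -/
abbrev Vtx (s q b : ℕ) : Type := Fin 3 ⊕ Fin s ⊕ (Fin q × Fin b)

/-- The adjacency relation given by its four non-trivial parts. -/
def adj {s q b : ℕ} (TT : Fin 3 → Fin 3 → Bool) (TS : Fin 3 → Fin s → Bool)
    (SB : Fin q → Fin b → Fin s → Bool) (BB : Fin q → Fin b → Fin b → Bool) :
    Vtx s q b → Vtx s q b → Prop
  | .inl i, .inl j => TT i j = true
  | .inl i, .inr (.inl u) => TS i u = true
  | .inl _, .inr (.inr _) => False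
  | .inr (.inl u), .inl i => TS i u = true
  | .inr (.inl _), .inr (.inl _) => False
  | .inr (.inl u), .inr (.inr z) => SB z.1 z.2 u = true
  | .inr (.inr _), .inl _ => False
  | .inr (.inr z), .inr (.inl u) => SB z.1 z.2 u = true
  | .inr (.inr z), .inr (.inr w) => z.1 = w.1 ∧ BB z.1 z.2 w.2 = true

/-- The graph given by its four non-trivial parts. -/
def mk {s q b : ℕ} (TT : Fin 3 → Fin 3 → Bool) (TS : Fin 3 → Fin s → Bool)
    (SB : Fin q → Fin b → Fin s → Bool) (BB : Fin q → Fin b → Fin b → Bool)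
    (h1 : ∀ i j, TT i j = TT j i) (h2 : ∀ i, TT i i = false)
    (h3 : ∀ p x y, BB p x y = BB p y x) (h4 : ∀ p x, BB p x x = false) :
    SimpleGraph (Vtx s q b) where
  Adj := adj TT TS SB BB
  symm := ⟨by
    rintro (i | u | ⟨p, x⟩) (j | w | ⟨p', y⟩) h
    · simpa [adj, h1 j i] using h
    · simpa [adj] using h
    · simp [adj] at h
    · simpa [adj] using h
    · simp [adj] at h
    · simpa [adj] using h
    · simp [adj] at h
    · simpa [adj] using h
    · simp only [adj] at h ⊢
      obtain ⟨rfl, h⟩ := h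
      exact ⟨rfl, by rw [h3]; exact h⟩⟩
  loopless := ⟨by
    rintro (i | u | ⟨p, x⟩) h
    · simp [adj, h2] at h
    · simp [adj] at h
    · simp [adj, h4] at h⟩

open Classical in
/-- The number 1 if `P` holds, and 0 otherwise. -/
noncomputable def ind (P : Prop) : ℕ := if P then 1 else 0

lemma ind_pos {P : Prop} (h : P) : ind P = 1 := by simp [ind, h]

lemma ind_neg {P : Prop} (h : ¬ P) : ind P = 0 := by simp [ind, h]

lemma ind_bool (b : Bool) : ind (b = true) = b.toNat := by
  cases b <;> simp [ind]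

lemma ind_eq_zero {P : Prop} : ind P = 0 ↔ ¬ P := by
  by_cases h : P <;> simp [ind, h]

lemma ind_mono {P Q : Prop} (h : P → Q) : ind P ≤ ind Q := by
  by_cases hP : P
  · rw [ind_pos hP, ind_pos (h hP)]
  · rw [ind_neg hP]; exact Nat.zero_le _

lemma ncard_nbr {V : Type} [Fintype V] (G : SimpleGraph V) (v : V) :
    (G.neighborSet v).ncard = ∑ w, ind (G.Adj v w) := by
  classical
  have : G.neighborSet v = ((Finset.univ.filter fun w => G.Adj v w : Finset V) : Set V) := by
    ext w; simp
  rw [this, Set.ncard_coe_finset, Finset.card_filter]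
  rfl

section degrees

variable {s q b : ℕ} (TT : Fin 3 → Fin 3 → Bool) (TS : Fin 3 → Fin s → Bool)
    (SB : Fin q → Fin b → Fin s → Bool) (BB : Fin q → Fin b → Fin b → Bool)
    (h1 : ∀ i j, TT i j = TT j i) (h2 : ∀ i, TT i i = false)
    (h3 : ∀ p x y, BB p x y = BB p y x) (h4 : ∀ p x, BB p x x = false)

lemma regular_mk (t : ℕ)
    (d1 : ∀ i, (∑ j, (TT i j).toNat) + (∑ u, (TS i u).toNat) = t)
    (d2 : ∀ u, (∑ i, (TS i u).toNat) + (∑ p, ∑ x, (SB p x u).toNat) = t)
    (d3 : ∀ p x, (∑ u, (SB p x u).toNat) + (∑ y, (BB p x y).toNat) = t) :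
    ∀ v, ((mk TT TS SB BB h1 h2 h3 h4).neighborSet v).ncard = t := by
  have hF : ind False = 0 := ind_neg id
  intro v
  rw [ncard_nbr]
  rcases v with i | u | ⟨p, x⟩
  · rw [← d1 i]
    simp [mk, adj, Fintype.sum_sum_type, hF, ind_bool]
  · rw [← d2 u]
    simp [mk, adj, Fintype.sum_sum_type, Fintype.sum_prod_type, hF, ind_bool]
  · rw [← d3 p x]
    simp only [Fintype.sum_sum_type, Fintype.sum_prod_type, mk, adj, hF, ind_bool,
      Finset.sum_const_zero, zero_add]
    congr 1
    rw [Finset.sum_eq_single p]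
    · apply Finset.sum_congr rfl
      intro y _
      rw [← ind_bool]
      simp
    · intro p' _ hp
      apply Finset.sum_eq_zero
      intro y _
      apply ind_neg
      rintro ⟨h, _⟩
      exact hp h.symm
    · simp

/-- The parity and counting argument: no `t`-factor of the graph contains an edge between two
vertices of `T`. -/
lemma forced (κ t : ℕ)
    (c1 : ∀ p, ∑ x, ∑ u, (SB p x u).toNat = κ)
    (c2 : (b * t) % 2 ≠ κ % 2)
    (c3 : 3 * t + q * (κ - 1) ≤ s * t)
    (F : SimpleGraph (Vtx s q b)) (hF : IsFactor (mk TT TS SB BB h1 h2 h3 h4) t F)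
    (i j : Fin 3) : ¬ F.Adj (.inl i) (.inl j) := by
  classical
  obtain ⟨hle, hdeg⟩ := hF
  have hle' : ∀ v w, F.Adj v w → adj TT TS SB BB v w := fun v w h => hle h
  -- the parts of the degrees
  set a : Fin 3 → Fin 3 → ℕ := fun i j => ind (F.Adj (.inl i) (.inl j)) with ha
  set c : Fin 3 → Fin s → ℕ := fun i u => ind (F.Adj (.inl i) (.inr (.inl u))) with hc
  set d : Fin q → Fin b → Fin s → ℕ :=
    fun p x u => ind (F.Adj (.inr (.inl u)) (.inr (.inr (p, x)))) with hd
  set e : Fin q → Fin b → Fin b → ℕ :=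
    fun p x y => ind (F.Adj (.inr (.inr (p, x))) (.inr (.inr (p, y)))) with he
  have degT : ∀ i, (∑ j, a i j) + (∑ u, c i u) = t := by
    intro i
    rw [← hdeg (.inl i), ncard_nbr]
    simp only [Fintype.sum_sum_type]
    have : ∑ z : Fin q × Fin b, ind (F.Adj (.inl i) (.inr (.inr z))) = 0 := by
      apply Finset.sum_eq_zero
      intro z _
      exact ind_neg (fun h => hle' _ _ h)
    rw [this]
    simp [ha, hc]
  have degS : ∀ u, (∑ i, c i u) + (∑ p, ∑ x, d p x u) = t := by
    intro u
    rw [← hdeg (.inr (.inl u)), ncard_nbr]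
    simp only [Fintype.sum_sum_type]
    have : ∑ w : Fin s, ind (F.Adj (.inr (.inl u)) (.inr (.inl w))) = 0 := by
      apply Finset.sum_eq_zero
      intro z _
      exact ind_neg (fun h => hle' _ _ h)
    rw [this, zero_add, Fintype.sum_prod_type]
    congr 1
    apply Finset.sum_congr rfl
    intro i _
    simp [hc, F.adj_comm]
  have degB : ∀ p x, (∑ u, d p x u) + (∑ y, e p x y) = t := by
    intro p x
    rw [← hdeg (.inr (.inr (p, x))), ncard_nbr]
    simp only [Fintype.sum_sum_type]
    have h0 : ∑ w : Fin 3, ind (F.Adj (.inr (.inr (p, x))) (.inl w)) = 0 := by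
      apply Finset.sum_eq_zero
      intro z _
      exact ind_neg (fun h => hle' _ _ h)
    rw [h0, zero_add, Fintype.sum_prod_type]
    rw [Finset.sum_eq_single p (f := fun p' : Fin q =>
      ∑ y : Fin b, ind (F.Adj (.inr (.inr (p, x))) (.inr (.inr (p', y)))))]
    · congr 1
      apply Finset.sum_congr rfl
      intro i _
      simp [hd, F.adj_comm]
    · intro p' _ hp
      apply Finset.sum_eq_zero
      intro y _
      apply ind_neg
      intro h
      have := hle' _ _ h
      exact hp this.1.symm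
    · simp
  -- parity in a block
  have even_e : ∀ p, Even (∑ x, ∑ y, e p x y) := by
    intro p
    let H : SimpleGraph (Fin b) :=
      { Adj := fun x y => F.Adj (.inr (.inr (p, x))) (.inr (.inr (p, y)))
        symm := ⟨fun x y h => SimpleGraph.Adj.symm h⟩
        loopless := ⟨fun x h => F.loopless.irrefl _ h⟩ }
    have := H.sum_degrees_eq_twice_card_edges
    have h2 : ∑ x, ∑ y, e p x y = ∑ x, H.degree x := by
      apply Finset.sum_congr rfl
      intro x _
      rw [← SimpleGraph.card_neighborSet_eq_degree]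
      rw [← Nat.card_eq_fintype_card]
      exact (ncard_nbr H x).symm
    rw [h2, this]
    exact even_two_mul _
  have small : ∀ p, ∑ x, ∑ u, d p x u ≤ κ - 1 := by
    intro p
    have h1' : ∑ x, ∑ u, d p x u ≤ κ := by
      rw [← c1 p]
      apply Finset.sum_le_sum
      intro x _
      apply Finset.sum_le_sum
      intro u _
      rw [← ind_bool]
      exact ind_mono (fun h => hle' _ _ h)
    have h2' : (∑ x, ∑ u, d p x u) + (∑ x, ∑ y, e p x y) = b * t := by
      rw [← Finset.sum_add_distrib, Finset.sum_congr rfl (fun x _ => degB p x)]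
      simp
    obtain ⟨m, hm⟩ := even_e p
    omega
  -- counting
  have sumT : (∑ i, ∑ j, a i j) + (∑ i, ∑ u, c i u) = 3 * t := by
    rw [← Finset.sum_add_distrib, Finset.sum_congr rfl (fun x _ => degT x)]
    simp
  have sumS : (∑ u, ∑ i, c i u) + (∑ u, ∑ p, ∑ x, d p x u) = s * t := by
    rw [← Finset.sum_add_distrib, Finset.sum_congr rfl (fun x _ => degS x)]
    simp
  have sumD : (∑ u, ∑ p, ∑ x, d p x u) ≤ q * (κ - 1) := by
    rw [Finset.sum_comm]
    calc ∑ p, ∑ u, ∑ x, d p x u ≤ ∑ p : Fin q, (κ - 1) := by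
          apply Finset.sum_le_sum
          intro p _
          rw [Finset.sum_comm]
          exact small p
      _ = q * (κ - 1) := by simp
  have comm : ∑ u, ∑ i, c i u = ∑ i, ∑ u, c i u := Finset.sum_comm
  have zero : ∑ i, ∑ j, a i j = 0 := by omega
  have := (Finset.sum_eq_zero_iff.mp zero) i (Finset.mem_univ _)
  have := (Finset.sum_eq_zero_iff.mp this) j (Finset.mem_univ _)
  exact ind_eq_zero.mp this

end degrees

/-! ## Connectivity -/

section connectivity

variable {s q b : ℕ} (TT : Fin 3 → Fin 3 → Bool) (TS : Fin 3 → Fin s → Bool)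
    (SB : Fin q → Fin b → Fin s → Bool) (BB : Fin q → Fin b → Fin b → Bool)
    (h1 : ∀ i j, TT i j = TT j i) (h2 : ∀ i, TT i i = false)
    (h3 : ∀ p x y, BB p x y = BB p y x) (h4 : ∀ p x, BB p x x = false)

/-- Connectivity: `term k` is the `k`-th terminal of a block, `att p k` the vertex of `S` attached
to it in the block `p`, and `x`, `mid x k`, `term k`, `att p k` is a path (with repetitions). -/
lemma connected (κ : ℕ) (hκ3 : κ ≤ 3) (hs : 0 < s)
    (term : Fin κ → Fin b) (att : Fin q → Fin κ → Fin s) (mid : Fin b → Fin κ → Fin b)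
    (e1 : ∀ i j, i ≠ j → TT i j = true) (e2 : ∀ i u, TS i u = true)
    (e3 : ∀ p k, SB p (term k) (att p k) = true)
    (e4 : ∀ p x k, mid x k = x ∨ BB p x (mid x k) = true)
    (e5 : ∀ p x k, term k = mid x k ∨ BB p (mid x k) (term k) = true)
    (e6 : ∀ x k k', k ≠ k' → mid x k = mid x k' → False)
    (e7 : ∀ x k k', k ≠ k' → mid x k = term k' → mid x k = x)
    (e8 : ∀ k k', k ≠ k' → term k ≠ term k')
    (e9 : ∀ p k k', k ≠ k' → att p k ≠ att p k') :
    KConn κ (mk TT TS SB BB h1 h2 h3 h4) := by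
  classical
  set G := mk TT TS SB BB h1 h2 h3 h4 with hG
  have adjTT : ∀ i j, i ≠ j → G.Adj (.inl i) (.inl j) := fun i j h => e1 i j h
  have adjTS : ∀ i u, G.Adj (.inl i) (.inr (.inl u)) := fun i u => e2 i u
  have adjBS : ∀ p k, G.Adj (.inr (.inr (p, term k))) (.inr (.inl (att p k))) := fun p k => e3 p k
  have adjBB : ∀ p x y, BB p x y = true → G.Adj (.inr (.inr (p, x))) (.inr (.inr (p, y))) :=
    fun p x y h => ⟨rfl, h⟩
  refine ⟨?_, ?_⟩
  · simp only [Fintype.card_sum, Fintype.card_fin, Fintype.card_prod]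
    omega
  intro X hX
  obtain ⟨t0, ht0⟩ : ∃ t0 : Fin 3, (Sum.inl t0 : Vtx s q b) ∉ X := by
    by_contra hcon
    push Not at hcon
    have hsub : (Finset.univ.image (Sum.inl : Fin 3 → Vtx s q b)) ⊆ X := by
      intro v hv
      obtain ⟨i, _, rfl⟩ := Finset.mem_image.mp hv
      exact hcon i
    have := Finset.card_le_card hsub
    rw [Finset.card_image_of_injective _ Sum.inl_injective] at this
    simp at this
    omega
  set H := G.induce {v | v ∉ X} with hH
  have step : ∀ v w : Vtx s q b, (∃ hw : w ∉ X, H.Reachable ⟨w, hw⟩ ⟨.inl t0, ht0⟩) → v ∉ X →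
      (v = w ∨ G.Adj v w) → ∃ hv : v ∉ X, H.Reachable ⟨v, hv⟩ ⟨.inl t0, ht0⟩ := by
    intro v w hw hv h
    rcases h with rfl | h
    · exact hw
    · obtain ⟨hw, hr⟩ := hw
      refine ⟨hv, SimpleGraph.Reachable.trans (SimpleGraph.Adj.reachable ?_) hr⟩
      exact h
  have base : ∃ hw : (.inl t0 : Vtx s q b) ∉ X, H.Reachable ⟨.inl t0, hw⟩ ⟨.inl t0, ht0⟩ :=
    ⟨ht0, SimpleGraph.Reachable.refl _⟩
  have all : ∀ v : Vtx s q b, v ∉ X → ∃ hv : v ∉ X, H.Reachable ⟨v, hv⟩ ⟨.inl t0, ht0⟩ := by
    intro v hv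
    have hS : ∀ u, (.inr (.inl u) : Vtx s q b) ∉ X →
        ∃ hv : (.inr (.inl u) : Vtx s q b) ∉ X, H.Reachable ⟨_, hv⟩ ⟨.inl t0, ht0⟩ :=
      fun u hu => step _ _ base hu (Or.inr (adjTS t0 u).symm)
    rcases v with i | u | ⟨p, x⟩
    · apply step _ _ base hv
      by_cases hi : i = t0
      · left; rw [hi]
      · right; exact adjTT i t0 hi
    · exact hS u hv
    · -- choose a path that avoids `X`
      obtain ⟨k, hk1, hk2, hk3⟩ : ∃ k : Fin κ, (.inr (.inr (p, mid x k)) : Vtx s q b) ∉ X ∧
          (.inr (.inr (p, term k)) : Vtx s q b) ∉ X ∧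
          (.inr (.inl (att p k)) : Vtx s q b) ∉ X := by
        by_contra hcon
        have hcon' : ∀ k : Fin κ, ∃ w : Vtx s q b, w ∈ X ∧ (w = .inr (.inr (p, mid x k)) ∨
            w = .inr (.inr (p, term k)) ∨ w = .inr (.inl (att p k))) := by
          intro k
          by_contra hk
          apply hcon
          refine ⟨k, ?_, ?_, ?_⟩
          · intro h; exact hk ⟨_, h, Or.inl rfl⟩
          · intro h; exact hk ⟨_, h, Or.inr (Or.inl rfl)⟩
          · intro h; exact hk ⟨_, h, Or.inr (Or.inr rfl)⟩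
        choose f hf1 hf2 using hcon'
        have hinj : Function.Injective f := by
          intro k k' hkk
          by_contra hne
          have g1 := hf2 k
          have g2 := hf2 k'
          have m1 := hf1 k
          rw [← hkk] at g2
          have hne' : k' ≠ k := fun h => hne h.symm
          rcases g1 with g1 | g1 | g1 <;> rcases g2 with g2 | g2 | g2 <;>
            rw [g1] at g2 <;> simp only [Sum.inr.injEq, Sum.inl.injEq, Prod.mk.injEq, true_and,
              reduceCtorEq] at g2
          · exact e6 x k k' hne g2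
          · have := e7 x k k' hne g2
            rw [g1, this] at m1
            exact hv m1
          · have := e7 x k' k hne' g2.symm
            rw [g1, g2, this] at m1
            exact hv m1
          · exact e8 k k' hne g2
          · exact e9 p k k' hne g2
        have hcard : κ ≤ X.card := by
          have := Finset.card_le_card (s := Finset.univ.image f) (t := X) (by
            intro w hw
            obtain ⟨k, _, rfl⟩ := Finset.mem_image.mp hw
            exact hf1 k)
          rw [Finset.card_image_of_injective _ hinj] at this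
          simpa using this
        omega
      have r1 := hS _ hk3
      have r2 := step _ _ r1 hk2 (Or.inr (adjBS p k))
      have r3 := step _ _ r2 hk1 (by
        rcases e5 p x k with h | h
        · left; rw [h]
        · right; exact adjBB _ _ _ h)
      exact step _ _ r3 hv (by
        rcases e4 p x k with h | h
        · left; rw [h]
        · right; exact adjBB _ _ _ h)
  rw [SimpleGraph.connected_iff]
  refine ⟨?_, ⟨⟨_, ht0⟩⟩⟩
  rintro ⟨v, hv⟩ ⟨w, hw⟩
  obtain ⟨_, r1⟩ := all v hv
  obtain ⟨_, r2⟩ := all w hw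
  exact r1.trans r2.symm

end connectivity

lemma mk_le {s q b : ℕ} (TT TT' : Fin 3 → Fin 3 → Bool) (TS TS' : Fin 3 → Fin s → Bool)
    (SB SB' : Fin q → Fin b → Fin s → Bool) (BB BB' : Fin q → Fin b → Fin b → Bool)
    (h1 : ∀ i j, TT i j = TT j i) (h2 : ∀ i, TT i i = false)
    (h3 : ∀ p x y, BB p x y = BB p y x) (h4 : ∀ p x, BB p x x = false)
    (h1' : ∀ i j, TT' i j = TT' j i) (h2' : ∀ i, TT' i i = false)
    (h3' : ∀ p x y, BB' p x y = BB' p y x) (h4' : ∀ p x, BB' p x x = false)
    (l1 : ∀ i j, TT' i j = true → TT i j = true) (l2 : ∀ i u, TS' i u = true → TS i u = true)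
    (l3 : ∀ p x u, SB' p x u = true → SB p x u = true)
    (l4 : ∀ p x y, BB' p x y = true → BB p x y = true) :
    mk TT' TS' SB' BB' h1' h2' h3' h4' ≤ mk TT TS SB BB h1 h2 h3 h4 := by
  rintro (i | u | ⟨p, x⟩) (j | w | ⟨p', y⟩) h
  · exact l1 i j h
  · exact l2 i w h
  · exact h
  · exact l2 j u h
  · exact h
  · exact l3 p' y u h
  · exact h
  · exact l3 p x w h
  · exact ⟨h.1, l4 _ _ _ h.2⟩

/-! ## Putting things together -/

/-- The triangle `T` is a cycle of the graph. -/
lemma triangle_cycle {V : Type} (G : SimpleGraph V) (x y z : V) (hxy : G.Adj x y)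
    (hyz : G.Adj y z) (hzx : G.Adj z x) :
    IsCycleEdges G {e | e ∈ [s(x, y), s(y, z), s(z, x)]} := by
  refine ⟨x, .cons hxy (.cons hyz (.cons hzx .nil)), ?_, ?_⟩
  · have h1 := hxy.ne
    have h2 := hyz.ne
    have h3 := hzx.ne
    rw [SimpleGraph.Walk.isCycle_def, SimpleGraph.Walk.isTrail_def]
    refine ⟨?_, by simp, ?_⟩
    · simp only [SimpleGraph.Walk.edges_cons, SimpleGraph.Walk.edges_nil]
      simp only [List.nodup_cons, List.mem_cons, Sym2.eq_iff, List.not_mem_nil, or_false,
        not_or, not_and, List.nodup_nil, and_true, not_false_eq_true]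
      refine ⟨⟨⟨fun h => absurd h h1, fun h => absurd h.symm h3⟩,
        ⟨fun h => absurd h.symm h3, fun _ h => ?_⟩⟩, ?_, ?_⟩
      · exact absurd h h2
      · intro h; exact absurd h h2
      · intro h; exact absurd h.symm h1
    · simp only [SimpleGraph.Walk.support_cons, SimpleGraph.Walk.support_nil, List.tail_cons,
        List.nodup_cons, List.mem_cons, List.not_mem_nil, or_false, not_or, List.nodup_nil,
        and_true, not_false_eq_true]
      exact ⟨⟨h2, h1.symm⟩, h3⟩
  · simp

lemma refute (κ r t : ℕ) {V : Type} [Fintype V] (G F : SimpleGraph V)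
    (hr : 0 < r) (ht : 0 < t) (h1 : r ≤ κ * t) (h2 : t ≤ r) (hκ : 0 < κ)
    (hconn : KConn κ G) (hreg : ∀ v, (G.neighborSet v).ncard = r) (hF : IsFactor G t F)
    (x y z : V) (hxy : G.Adj x y) (hyz : G.Adj y z) (hzx : G.Adj z x)
    (hno : ∀ F, IsFactor G t F → ¬ F.Adj x y ∧ ¬ F.Adj y z ∧ ¬ F.Adj z x) :
    ¬ StatementFor κ := by
  intro H
  have hr' : (0 : ℚ) < r := by exact_mod_cast hr
  have hκ' : (0 : ℚ) < κ := by exact_mod_cast hκ
  obtain ⟨F', hF', hC⟩ := H r t hr ht
    (by rw [div_le_div_iff₀ hκ' hr']; rw [one_mul, mul_comm]; exact_mod_cast h1)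
    (by rw [div_le_one hr']; exact_mod_cast h2)
    V G hconn hreg ⟨F, hF⟩ {{e | e ∈ [s(x, y), s(y, z), s(z, x)]}}
    (by
      intro C hC
      rw [Set.mem_singleton_iff] at hC
      rw [hC]
      exact triangle_cycle G x y z hxy hyz hzx)
    (Set.pairwiseDisjoint_singleton _ _)
  obtain ⟨e, he1, he2⟩ := hC _ (Set.mem_singleton _)
  obtain ⟨n1, n2, n3⟩ := hno F' hF'
  simp only [List.mem_cons, List.not_mem_nil, or_false, Set.mem_ofPred_eq] at he1
  rcases he1 with rfl | rfl | rfl
  · exact n1 he2
  · exact n2 he2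
  · exact n3 he2

/-! ## Concrete data -/

/-- Complete adjacency inside `T`. -/
def TTc (i j : Fin 3) : Bool := !(i == j)

/-- No adjacency inside `T`. -/
def TTf (_ _ : Fin 3) : Bool := false

/-- Complete adjacency between `T` and `S`. -/
def TSc {s : ℕ} (_ : Fin 3) (_ : Fin s) : Bool := true

/-- Adjacency between `T` and `S` in the factor. -/
def TSf {s : ℕ} (i : Fin 3) (u : Fin s) : Bool := !(i.val == u.val)

/-- Attachment of the blocks, given by a table. -/
def SBc {s q b : ℕ} (tbl : List (List ℕ)) (p : Fin q) (x : Fin b) (u : Fin s) : Bool :=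
  ((tbl.getD p.val []).getD x.val 99) == u.val

/-- Attachment of the blocks in the factor: one of the edges is left out. -/
def SBf {s q b : ℕ} (tbl : List (List ℕ)) (pk : List ℕ) (p : Fin q) (x : Fin b) (u : Fin s) :
    Bool := SBc tbl p x u && !(x.val == pk.getD p.val 0)

/-- Exchange of `0` and `k`. -/
def sw (k n : ℕ) : ℕ := if n = 0 then k else if n = k then 0 else n

/-- Adjacency in a block in the factor: the edges in `msk`, suitably renamed, are left out. -/
def BBf {q b : ℕ} (blk : Fin b → Fin b → Bool) (msk pk : List ℕ) (p : Fin q) (x y : Fin b) :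
    Bool := blk x y && !(Nat.testBit (msk.getD (sw (pk.getD p.val 0) x.val) 0)
      (sw (pk.getD p.val 0) y.val))

/-- The `k`-th terminal of a block. -/
def term (κ b : ℕ) [NeZero b] (k : Fin κ) : Fin b := Fin.ofNat b k.val

/-- The vertex of `S` attached to the `k`-th terminal of the block `p`. -/
def att {κ q : ℕ} (s : ℕ) [NeZero s] (tbl : List (List ℕ)) (p : Fin q) (k : Fin κ) : Fin s :=
  Fin.ofNat s ((tbl.getD p.val []).getD k.val 0)

/-- The inner vertex of the path from `x` to the `k`-th terminal. -/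
def mid (κ b : ℕ) [NeZero b] (x : Fin b) (k : Fin κ) : Fin b :=
  if x.val < κ then (if x.val = k.val then x else Fin.ofNat b (κ + k.val)) else term κ b k

/-! ### `κ = 2` -/

/-- The 15 pairs. -/
def tbl2 : List (List ℕ) := [[0, 1], [0, 2], [0, 3], [0, 4], [0, 5], [1, 2], [1, 3], [1, 4],
  [1, 5], [2, 3], [2, 4], [2, 5], [3, 4], [3, 5], [4, 5]]

/-- The edges left out. -/
def pk2 : List ℕ := [1, 1, 0, 0, 1, 1, 0, 1, 1, 1, 1, 1, 0, 0, 0]

/-- The complement of the factor in a block. -/
def msk2 : List ℕ := [48, 448, 336, 304, 13, 137, 134, 98, 14]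

/-- A block for `κ = 2`: `K₉` minus an edge. -/
def blk2 (x y : Fin 9) : Bool := !(x == y) && !(decide (x.val < 2) && decide (y.val < 2))

/-! ### `κ = 3` -/

/-- The 24 triples: the 12 lines of the affine plane of order 3, each of them twice. -/
def tbl3 : List (List ℕ) := [[0, 3, 6], [1, 4, 7], [2, 5, 8], [0, 1, 2], [3, 4, 5], [6, 7, 8],
  [0, 5, 7], [1, 3, 8], [2, 4, 6], [0, 4, 8], [2, 3, 7], [1, 5, 6], [0, 3, 6], [1, 4, 7],
  [2, 5, 8], [0, 1, 2], [3, 4, 5], [6, 7, 8], [0, 5, 7], [1, 3, 8], [2, 4, 6], [0, 4, 8],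
  [2, 3, 7], [1, 5, 6]]

/-- The edges left out. -/
def pk3 : List ℕ := [1, 1, 2, 2, 0, 1, 2, 2, 1, 2, 1, 2, 2, 2, 1, 0, 2, 0, 1, 0, 1, 0, 0, 0]

/-- The complement of the factor in a block. -/
def msk3 : List ℕ := [2064, 1064, 896, 98, 289, 26, 4360, 2564, 84, 4228, 6146, 1153, 1600]

/-- A block for `κ = 3`: `K₁₃` minus a triangle and a perfect matching of the other vertices. -/
def blk3 (x y : Fin 13) : Bool := !(x == y) && !(decide (x.val < 3) && decide (y.val < 3)) &&
  !(decide (3 ≤ x.val) && decide (3 ≤ y.val) && ((x.val - 3) / 2 == (y.val - 3) / 2))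

theorem not_two : ¬ StatementFor 2 := by
  have s1 : ∀ i j, TTc i j = TTc j i := by decide
  have s2 : ∀ i, TTc i i = false := by decide
  have s3 : ∀ (_ : Fin 15) x y, blk2 x y = blk2 y x := by decide +kernel
  have s4 : ∀ (_ : Fin 15) x, blk2 x x = false := by decide +kernel
  have s5 : ∀ i j, TTf i j = TTf j i := by decide
  have s6 : ∀ i, TTf i i = false := by decide
  have s7 : ∀ (p : Fin 15) x y, BBf blk2 msk2 pk2 p x y = BBf blk2 msk2 pk2 p y x := by
    decide +kernel
  have s8 : ∀ (p : Fin 15) x, BBf blk2 msk2 pk2 p x x = false := by decide +kernel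
  have hno := forced (s := 6) (q := 15) (b := 9) TTc TSc (SBc tbl2) (fun _ => blk2) s1 s2 s3 s4
    2 5 (by decide +kernel) (by norm_num) (by norm_num)
  refine refute 2 8 5 (mk (s := 6) (q := 15) (b := 9) TTc TSc (SBc tbl2) (fun _ => blk2)
    s1 s2 s3 s4) (mk (s := 6) (q := 15) (b := 9) TTf TSf (SBf tbl2 pk2) (BBf blk2 msk2 pk2)
    s5 s6 s7 s8) (by norm_num) (by norm_num) (by norm_num) (by norm_num) (by norm_num) ?_ ?_ ?_
    (.inl 0) (.inl 1) (.inl 2) (show TTc 0 1 = true by decide) (show TTc 1 2 = true by decide)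
    (show TTc 2 0 = true by decide) (fun F hF => ⟨hno F hF _ _, hno F hF _ _, hno F hF _ _⟩)
  · exact connected TTc TSc (SBc tbl2) (fun _ => blk2) s1 s2 s3 s4 2 (by norm_num) (by norm_num)
      (term 2 9) (att 6 tbl2) (mid 2 9) (by decide) (by decide) (by decide +kernel)
      (by decide +kernel) (by decide +kernel) (by decide +kernel) (by decide +kernel)
      (by decide +kernel) (by decide +kernel)
  · exact regular_mk _ _ _ _ _ _ _ _ 8 (by decide +kernel) (by decide +kernel)
      (by decide +kernel)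
  · refine ⟨?_, regular_mk _ _ _ _ _ _ _ _ 5 (by decide +kernel) (by decide +kernel)
      (by decide +kernel)⟩
    exact mk_le _ _ _ _ _ _ _ _ _ _ _ _ _ _ _ _ (by decide) (fun _ _ _ => rfl)
      (by decide +kernel) (by decide +kernel)

theorem not_three : ¬ StatementFor 3 := by
  have s1 : ∀ i j, TTc i j = TTc j i := by decide
  have s2 : ∀ i, TTc i i = false := by decide
  have s3 : ∀ (_ : Fin 24) x y, blk3 x y = blk3 y x := by decide +kernel
  have s4 : ∀ (_ : Fin 24) x, blk3 x x = false := by decide +kernel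
  have s5 : ∀ i j, TTf i j = TTf j i := by decide
  have s6 : ∀ i, TTf i i = false := by decide
  have s7 : ∀ (p : Fin 24) x y, BBf blk3 msk3 pk3 p x y = BBf blk3 msk3 pk3 p y x := by
    decide +kernel
  have s8 : ∀ (p : Fin 24) x, BBf blk3 msk3 pk3 p x x = false := by decide +kernel
  have hno := forced (s := 9) (q := 24) (b := 13) TTc TSc (SBc tbl3) (fun _ => blk3) s1 s2 s3 s4
    3 8 (by decide +kernel) (by norm_num) (by norm_num)
  refine refute 3 11 8 (mk (s := 9) (q := 24) (b := 13) TTc TSc (SBc tbl3) (fun _ => blk3)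
    s1 s2 s3 s4) (mk (s := 9) (q := 24) (b := 13) TTf TSf (SBf tbl3 pk3) (BBf blk3 msk3 pk3)
    s5 s6 s7 s8) (by norm_num) (by norm_num) (by norm_num) (by norm_num) (by norm_num) ?_ ?_ ?_
    (.inl 0) (.inl 1) (.inl 2) (show TTc 0 1 = true by decide) (show TTc 1 2 = true by decide)
    (show TTc 2 0 = true by decide) (fun F hF => ⟨hno F hF _ _, hno F hF _ _, hno F hF _ _⟩)
  · exact connected TTc TSc (SBc tbl3) (fun _ => blk3) s1 s2 s3 s4 3 (by norm_num) (by norm_num)
      (term 3 13) (att 9 tbl3) (mid 3 13) (by decide) (by decide) (by decide +kernel)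
      (by decide +kernel) (by decide +kernel) (by decide +kernel) (by decide +kernel)
      (by decide +kernel) (by decide +kernel)
  · exact regular_mk _ _ _ _ _ _ _ _ 11 (by decide +kernel) (by decide +kernel)
      (by decide +kernel)
  · refine ⟨?_, regular_mk _ _ _ _ _ _ _ _ 8 (by decide +kernel) (by decide +kernel)
      (by decide +kernel)⟩
    exact mk_le _ _ _ _ _ _ _ _ _ _ _ _ _ _ _ _ (by decide) (fun _ _ _ => rfl)
      (by decide +kernel) (by decide +kernel)

/-- The statement of the problem is false both for `κ = 2` and for `κ = 3`, already for simple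
graphs (and, in the proof, for a family that consists of one triangle). -/
theorem result : ¬ StatementFor 2 ∧ ¬ StatementFor 3 := ⟨not_two, not_three⟩

end Pool.Agent.Results.MP_f3efb8_co.ForcedTriangle
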